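import Pool.Agent.helper96.Slope.Defs

/-!
# Module PL: many pairs `(a, n)` with `a n + c` prime
-/

namespace Pool.Agent.helper96.Slope

open Finset Pool.Agent.Lib.BrunHooley ArithmeticFunction

lemma plx_fam_eq (A P : ℕ) (hP : 2 ≤ P) :
    fam A P = {n ∈ Ioc A (A + A) | n ≡ 1 [MOD P]} := by
  unfold fam
  rw [two_mul]
  apply Finset.filter_congr
  intro n _
  unfold Nat.ModEq
  rw [Nat.mod_eq_of_lt (show 1 < P by omega)]

lemma plx_fam_card (A P : ℕ) (hP : 2 ≤ P) : (A : ℝ) / P - 1 ≤ #(fam A P) := by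
  have h := card_modEq_approx A A P 1 (by omega)
  rw [plx_fam_eq A P hP]
  have := (abs_le.1 h).1
  linarith

/-- an element `≡ 1 mod P` divisible by `f` forces `f` coprime to `P`. -/
lemma plx_coprime {f P a : ℕ} (ha : a % P = 1) (hfa : f ∣ a) : Nat.Coprime f P := by
  have h1 : Nat.gcd f P ∣ a := (Nat.gcd_dvd_left f P).trans hfa
  have h2 : Nat.gcd f P ∣ P := Nat.gcd_dvd_right f P
  have h3 : a = P * (a / P) + 1 := by
    have := Nat.div_add_mod a P
    omega
  have h4 : Nat.gcd f P ∣ 1 := by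
    have h5 : Nat.gcd f P ∣ P * (a / P) := h2.mul_right _
    rw [h3] at h1
    exact (Nat.dvd_add_right h5).1 h1
  exact Nat.dvd_one.1 h4

lemma plx_fam_mult (A P W : ℕ) (hP2 : 2 ≤ P) (hP : ∀ p, p.Prime → p ≤ W → p ∣ P) (hW : 1 ≤ W)
    (f : ℕ) (hf : 1 < f) : #{a ∈ fam A P | f ∣ a} ≤ A / (P * W) + 2 := by
  rcases Finset.eq_empty_or_nonempty {a ∈ fam A P | f ∣ a} with h | ⟨a₀, h⟩
  · rw [h]; simp
  · rw [mem_filter] at h
    obtain ⟨h1, h2⟩ := h
    unfold fam at h1
    rw [mem_filter] at h1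
    have hcop := plx_coprime h1.2 h2
    have hfW : W < f := by
      by_contra hle
      push Not at hle
      have hq := Nat.minFac_prime (show f ≠ 1 by omega)
      have hq2 : f.minFac ≤ W := (Nat.minFac_le (by omega)).trans hle
      have hq3 : f.minFac ∣ P := hP _ hq hq2
      have hq4 : f.minFac ∣ Nat.gcd f P := Nat.dvd_gcd (Nat.minFac_dvd f) hq3
      rw [hcop] at hq4
      exact hq.one_lt.ne' (Nat.dvd_one.1 hq4)
    -- all elements are congruent to `a₀` mod `f * P`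
    have hsub : {a ∈ fam A P | f ∣ a} ⊆ {n ∈ Ioc A (A + A) | n ≡ a₀ [MOD (f * P)]} := by
      intro a ha
      rw [mem_filter] at ha
      obtain ⟨ha1, ha2⟩ := ha
      unfold fam at ha1
      rw [mem_filter, two_mul] at ha1
      rw [mem_filter]
      refine ⟨ha1.1, ?_⟩
      rw [← Nat.modEq_and_modEq_iff_modEq_mul hcop]
      constructor
      · unfold Nat.ModEq
        rw [Nat.mod_eq_zero_of_dvd ha2, Nat.mod_eq_zero_of_dvd h2]
      · unfold Nat.ModEq
        rw [ha1.2, h1.2]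
    have hc := card_le_card hsub
    have happ := (abs_le.1 (card_modEq_approx A A (f * P) a₀ (Nat.mul_pos (by omega) (by omega)))).2
    have hle : ((#{n ∈ Ioc A (A + A) | n ≡ a₀ [MOD (f * P)]} : ℕ) : ℝ) ≤ A / ((P * W : ℕ) : ℝ) + 1 := by
      have h3 : (A : ℝ) / ((f * P : ℕ) : ℝ) ≤ A / ((P * W : ℕ) : ℝ) := by
        apply div_le_div_of_nonneg_left (Nat.cast_nonneg _)
        · have : 0 < P * W := Nat.mul_pos (by omega) (by omega)
          exact_mod_cast this
        · have : P * W ≤ f * P := by nlinarith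
          exact_mod_cast this
      linarith
    have hPW : 0 < P * W := Nat.mul_pos (by omega) (by omega)
    have h5 : (A : ℝ) / ((P * W : ℕ) : ℝ) < ((A / (P * W) : ℕ) : ℝ) + 1 := by
      have h6 : A < (A / (P * W) + 1) * (P * W) := by
        have := Nat.lt_div_mul_add (a := A) hPW
        nlinarith
      rw [div_lt_iff₀ (by exact_mod_cast hPW)]
      exact_mod_cast h6
    have h6 : ((#{n ∈ Ioc A (A + A) | n ≡ a₀ [MOD (f * P)]} : ℕ) : ℝ)
        < ((A / (P * W) + 2 : ℕ) : ℝ) := by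
      push_cast at h5 ⊢
      push_cast at hle
      linarith
    have h7 : #{n ∈ Ioc A (A + A) | n ≡ a₀ [MOD (f * P)]} < A / (P * W) + 2 := by exact_mod_cast h6
    omega

lemma plx_Fam (A P W : ℕ) (hP2 : 2 ≤ P) (hP : ∀ p, p.Prime → p ≤ W → p ∣ P) (hW : 1 ≤ W) :
    Fam (fam A P) (2 * A) (A / (P * W) + 2) where
  pos := by
    intro a ha
    unfold fam at ha
    rw [mem_filter, mem_Ioc] at ha
    omega
  le := by
    intro a ha
    unfold fam at ha
    rw [mem_filter, mem_Ioc] at ha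
    omega
  mult := fun f hf => plx_fam_mult A P W hP2 hP hW f hf
  one_le := le_trans (by norm_num) (Nat.le_add_left 2 _)

lemma plx_isCoprime (A P W : ℕ) (hP : ∀ p, p.Prime → p ≤ W → p ∣ P) (c : ℤ) (hc : c ≠ 0)
    (hcW : c.natAbs ≤ W) (a : ℕ) (ha : a ∈ fam A P) : IsCoprime c (a : ℤ) := by
  unfold fam at ha
  rw [mem_filter] at ha
  rw [Int.isCoprime_iff_gcd_eq_one]
  by_contra hne
  set g := Int.gcd c (a : ℤ) with hg
  have hq := Nat.minFac_prime hne
  have h1 : g ∣ c.natAbs := by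
    rw [hg, Int.gcd_eq_natAbs]; exact Nat.gcd_dvd_left _ _
  have h2 : g ∣ a := by
    rw [hg, Int.gcd_eq_natAbs]; simpa using Nat.gcd_dvd_right c.natAbs (Int.natAbs (a : ℤ))
  have hpos : 0 < c.natAbs := Int.natAbs_pos.2 hc
  have h3 : g.minFac ≤ W := (Nat.le_of_dvd hpos ((Nat.minFac_dvd g).trans h1)).trans hcW
  have h4 : g.minFac ∣ P := hP _ hq h3
  have h5 := plx_coprime ha.2 ((Nat.minFac_dvd g).trans h2)
  have h6 : g.minFac ∣ Nat.gcd g.minFac P := Nat.dvd_gcd dvd_rfl h4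
  rw [h5] at h6
  exact hq.one_lt.ne' (Nat.dvd_one.1 h6)

open Classical in
/-- for one modulus: the primes `p ≡ c mod a` in `(X/8, X]` come from `n ≤ N`. -/
lemma plx_one (A N a : ℕ) (c : ℤ) (hA : 1 ≤ A) (haA : A < a) (hN : c.natAbs ≤ N)
    (hX : c.natAbs ≤ A * N / 8) (hAN : A ≤ N) (hN1 : 1 ≤ N) :
    ∑ p ∈ Ioc (A * N / 8) (A * N) with p.Prime, cg a c p * Real.log p
      ≤ 2 * Real.log N * (#((Icc 1 N).filter (fun n : ℕ => IsP ((a : ℤ) * n + c))) : ℝ) := by
  have hlogN : 0 ≤ Real.log N := Real.log_natCast_nonneg N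
  have h1 : ∑ p ∈ Ioc (A * N / 8) (A * N) with p.Prime, cg a c p * Real.log p
      ≤ ∑ p ∈ (Ioc (A * N / 8) (A * N)).filter (fun p : ℕ => p.Prime ∧ (p : ℤ) ≡ c [ZMOD a]),
        2 * Real.log N := by
    rw [← Finset.filter_filter, Finset.sum_filter (p := fun p : ℕ => (p : ℤ) ≡ c [ZMOD a])]
    apply Finset.sum_le_sum
    intro p hp
    rw [mem_filter, mem_Ioc] at hp
    unfold cg
    split_ifs with h
    · rw [one_mul]
      have hp0 : 0 < p := hp.2.pos
      have : Real.log p ≤ Real.log ((A : ℝ) * N) := by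
        apply Real.log_le_log (by exact_mod_cast hp0)
        exact_mod_cast hp.1.2
      rw [Real.log_mul (by positivity) (by positivity)] at this
      have h2 : Real.log A ≤ Real.log N := by
        apply Real.log_le_log (by exact_mod_cast hA)
        exact_mod_cast hAN
      linarith
    · simp
  refine h1.trans ?_
  rw [Finset.sum_const, nsmul_eq_mul, mul_comm]
  apply mul_le_mul_of_nonneg_left _ (by positivity)
  have h2 : #((Ioc (A * N / 8) (A * N)).filter (fun p : ℕ => p.Prime ∧ (p : ℤ) ≡ c [ZMOD a]))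
      ≤ #((Icc 1 N).filter (fun n : ℕ => IsP ((a : ℤ) * n + c))) := by
    apply Finset.card_le_card_of_injOn (fun p : ℕ => (((p : ℤ) - c) / a).toNat)
    · intro p hp
      simp only [Finset.coe_filter, Set.mem_ofPred_eq, mem_Ioc] at hp
      obtain ⟨⟨hp1, hp2⟩, hp3, hp4⟩ := hp
      have hdvd : (a : ℤ) ∣ (p : ℤ) - c := (Int.modEq_iff_dvd.1 hp4.symm)
      obtain ⟨n, hn⟩ := hdvd
      have ha0 : (0 : ℤ) < a := by exact_mod_cast (by omega : 0 < a)
      have hdiv : ((p : ℤ) - c) / a = n := by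
        rw [hn]; exact Int.mul_ediv_cancel_left _ ha0.ne'
      have hpos : (0 : ℤ) < (a : ℤ) * n := by
        rw [← hn]
        have : c.natAbs < p := lt_of_le_of_lt hX hp1
        omega
      have hn0 : 0 < n := by
        by_contra hcon
        push Not at hcon
        nlinarith
      have hnN : n ≤ N := by
        by_contra hcon
        push Not at hcon
        have h5 : (a : ℤ) * n ≤ A * N + N := by
          rw [← hn]
          have : (p : ℤ) ≤ A * N := by exact_mod_cast hp2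
          omega
        have h6 : (A : ℤ) + 1 ≤ a := by exact_mod_cast haA
        have hN' : (1 : ℤ) ≤ N := by exact_mod_cast hN1
        nlinarith
      simp only [Finset.coe_filter, Set.mem_ofPred_eq, mem_Icc, hdiv]
      refine ⟨⟨by omega, by omega⟩, ?_⟩
      unfold IsP
      have : (a : ℤ) * (n.toNat : ℤ) + c = p := by
        rw [Int.toNat_of_nonneg hn0.le]; linarith
      rw [this]
      simpa using hp3
    · intro p hp q hq hpq
      simp only [Finset.coe_filter, Set.mem_ofPred_eq, mem_Ioc] at hp hq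
      obtain ⟨⟨hp1, hp2⟩, hp3, hp4⟩ := hp
      obtain ⟨⟨hq1, hq2⟩, hq3, hq4⟩ := hq
      obtain ⟨n, hn⟩ := (Int.modEq_iff_dvd.1 hp4.symm)
      obtain ⟨m, hm⟩ := (Int.modEq_iff_dvd.1 hq4.symm)
      have ha0 : (0 : ℤ) < a := by exact_mod_cast (by omega : 0 < a)
      have hdiv : ((p : ℤ) - c) / a = n := by
        rw [hn]; exact Int.mul_ediv_cancel_left _ ha0.ne'
      have hdiv' : ((q : ℤ) - c) / a = m := by
        rw [hm]; exact Int.mul_ediv_cancel_left _ ha0.ne'
      simp only [hdiv, hdiv'] at hpq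
      have hpos : (0 : ℤ) < (a : ℤ) * n := by
        rw [← hn]
        have : c.natAbs < p := lt_of_le_of_lt hX hp1
        omega
      have hpos' : (0 : ℤ) < (a : ℤ) * m := by
        rw [← hm]
        have : c.natAbs < q := lt_of_le_of_lt hX hq1
        omega
      have hn0 : 0 < n := by
        by_contra hcon
        push Not at hcon
        nlinarith
      have hm0 : 0 < m := by
        by_contra hcon
        push Not at hcon
        nlinarith
      have hnm : n = m := by omega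
      rw [hnm] at hn
      have : (p : ℤ) = q := by linarith
      exact_mod_cast this
  exact_mod_cast h2

open Classical in
/-- **Module PL**, with the statement of module AP as hypothesis. -/
theorem pairs_lower_of (hAP : ∃ (K : ℕ) (C : ℝ), 0 < C ∧
    ∀ (X N M : ℕ) (𝒜 : Finset ℕ) (c : ℤ), Fam 𝒜 N M → (∀ a ∈ 𝒜, IsCoprime c (a : ℤ)) →
    N ^ K ≤ X → K ≤ X → C * M ≤ #𝒜 →
    #𝒜 * (X / 8 : ℝ) ≤ ∑ a ∈ 𝒜, (Nat.totient a : ℝ) *
      ∑ p ∈ Ioc (X / 8) X with p.Prime, cg a c p * Real.log p) : ∃ K W₀ : ℕ, 1 ≤ K ∧ ∀ (W P : ℕ) (c : ℤ), W₀ ≤ W →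
    (∀ p, p.Prime → p ≤ W → p ∣ P) → 0 < P → c ≠ 0 → c.natAbs ≤ W → ∃ A₁ : ℕ, ∀ A ≥ A₁,
    ∀ N ≥ A ^ K, (#(fam A P) : ℝ) * N / (32 * Real.log N)
      ≤ ∑ n ∈ Icc 1 N, (#((fam A P).filter (fun a : ℕ => IsP ((a : ℤ) * n + c))) : ℝ) := by
  obtain ⟨K, C, hC, hap⟩ := hAP
  refine ⟨2 * K + 1, ⌈2 * C⌉₊ + 2, by omega, ?_⟩
  intro W P c hW hP hP0 hc hcW
  have hP2 : 2 ≤ P := Nat.le_of_dvd hP0 (hP 2 Nat.prime_two (by omega))
  have hWC : 2 * C ≤ (W : ℝ) := by
    have h1 : 2 * C ≤ (⌈2 * C⌉₊ : ℝ) := Nat.le_ceil _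
    have h2 : ((⌈2 * C⌉₊ + 2 : ℕ) : ℝ) ≤ W := by exact_mod_cast hW
    push_cast at h2
    linarith
  refine ⟨⌈2 * P * (2 * C + 1)⌉₊ + 8 * c.natAbs + K + 8, ?_⟩
  intro A hA N hN
  have hA8 : 8 ≤ A := by omega
  have hAc : 8 * c.natAbs ≤ A := by omega
  have hAK : K ≤ A := by omega
  have hAP : 2 * P * (2 * C + 1) ≤ (A : ℝ) := by
    have h1 : 2 * P * (2 * C + 1) ≤ (⌈2 * P * (2 * C + 1)⌉₊ : ℝ) := Nat.le_ceil _
    have h2 : ((⌈2 * P * (2 * C + 1)⌉₊ + 8 * c.natAbs + K + 8 : ℕ) : ℝ) ≤ A := by exact_mod_cast hA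
    push_cast at h2
    have h3 : (0 : ℝ) ≤ 8 * (c.natAbs : ℝ) := by positivity
    have h4 : (0 : ℝ) ≤ (K : ℝ) := by positivity
    linarith
  have hAN : A ≤ N := by
    refine le_trans ?_ hN
    calc A = A ^ 1 := (pow_one A).symm
      _ ≤ A ^ (2 * K + 1) := Nat.pow_le_pow_right (by omega) (by omega)
  have hN1 : 1 ≤ N := by omega
  -- apply the average theorem
  have hM : C * ((A / (P * W) + 2 : ℕ) : ℝ) ≤ #(fam A P) := by
    have h1 := plx_fam_card A P hP2
    have hPr : (0 : ℝ) < P := by exact_mod_cast hP0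
    have hWr : (0 : ℝ) < W := by
      have : 0 < W := by omega
      exact_mod_cast this
    have h2 : ((A / (P * W) : ℕ) : ℝ) ≤ A / ((P : ℝ) * W) := by
      have := @Nat.cast_div_le ℝ _ _ _ A (P * W)
      push_cast at this
      exact this
    have h3 : C * (A / ((P : ℝ) * W)) ≤ A / P / 2 := by
      rw [← div_div]
      rw [mul_div_assoc', div_le_div_iff₀ hWr (by norm_num)]
      have : (0 : ℝ) ≤ (A : ℝ) / P := by positivity
      nlinarith
    have h4 : 2 * C + 1 ≤ (A : ℝ) / P / 2 := by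
      rw [div_div, le_div_iff₀ (by positivity)]
      linarith
    push_cast
    nlinarith
  have hpow : (2 * A) ^ K ≤ A * N := by
    have h1 : (2 * A) ^ K ≤ (A * A) ^ K := Nat.pow_le_pow_left (by nlinarith) K
    have h2 : (A * A) ^ K = A ^ (2 * K) := by
      rw [← pow_two, ← pow_mul]
    have h3 : A ^ (2 * K) ≤ A ^ (2 * K + 1) := Nat.pow_le_pow_right (by omega) (by omega)
    have h4 : A ^ (2 * K + 1) ≤ A * N := by
      calc A ^ (2 * K + 1) ≤ N := hN
        _ ≤ A * N := Nat.le_mul_of_pos_left _ (by omega)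
    omega
  have hmain := hap (A * N) (2 * A) (A / (P * W) + 2) (fam A P) c
    (plx_Fam A P W hP2 hP (by omega)) (fun a ha => plx_isCoprime A P W hP c hc hcW a ha)
    hpow (hAK.trans (Nat.le_mul_of_pos_right _ (by omega))) hM
  have hcX : c.natAbs ≤ A * N / 8 := by
    rw [Nat.le_div_iff_mul_le (by norm_num)]
    nlinarith
  have hlogN : 0 < Real.log N := Real.log_pos (by
    have : 8 ≤ N := hA8.trans hAN
    have h8 : ((8 : ℕ) : ℝ) ≤ N := by exact_mod_cast this
    push_cast at h8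
    linarith)
  have hApos : (0 : ℝ) < A := by
    have : 0 < A := by omega
    exact_mod_cast this
  have hub : ∑ a ∈ fam A P, (Nat.totient a : ℝ) *
      ∑ p ∈ Ioc (A * N / 8) (A * N) with p.Prime, cg a c p * Real.log p
      ≤ ∑ a ∈ fam A P, (2 * A : ℝ) * (2 * Real.log N * (#((Icc 1 N).filter (fun n : ℕ => IsP ((a : ℤ) * n + c))) : ℝ)) := by
    apply Finset.sum_le_sum
    intro a ha
    unfold fam at ha
    rw [mem_filter, mem_Ioc] at ha
    have h1 := plx_one A N a c (by omega) ha.1.1 (by omega) hcX hAN hN1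
    have h2 : (Nat.totient a : ℝ) ≤ 2 * A := by
      have : Nat.totient a ≤ 2 * A := (Nat.totient_le a).trans ha.1.2
      exact_mod_cast this
    have h3 : 0 ≤ ∑ p ∈ Ioc (A * N / 8) (A * N) with p.Prime, cg a c p * Real.log p := by
      apply Finset.sum_nonneg
      intro p _
      apply mul_nonneg
      · unfold cg; split_ifs <;> norm_num
      · exact Real.log_natCast_nonneg p
    exact mul_le_mul h2 h1 h3 (by positivity)
  have hswap : ∑ a ∈ fam A P, (#((Icc 1 N).filter (fun n : ℕ => IsP ((a : ℤ) * n + c))) : ℝ)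
      = ∑ n ∈ Icc 1 N, (#((fam A P).filter (fun a : ℕ => IsP ((a : ℤ) * n + c))) : ℝ) := by
    have : ∑ a ∈ fam A P, #((Icc 1 N).filter (fun n : ℕ => IsP ((a : ℤ) * n + c)))
        = ∑ n ∈ Icc 1 N, #((fam A P).filter (fun a : ℕ => IsP ((a : ℤ) * n + c))) := by
      simp only [Finset.card_filter]
      rw [Finset.sum_comm]
    exact_mod_cast this
  rw [← hswap]
  rw [div_le_iff₀ (by positivity)]
  have h5 : ∑ a ∈ fam A P, (2 * A : ℝ) * (2 * Real.log N * (#((Icc 1 N).filter (fun n : ℕ => IsP ((a : ℤ) * n + c))) : ℝ))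
      = 4 * A * Real.log N * ∑ a ∈ fam A P, (#((Icc 1 N).filter (fun n : ℕ => IsP ((a : ℤ) * n + c))) : ℝ) := by
    rw [Finset.mul_sum]
    apply Finset.sum_congr rfl
    intro a _
    ring
  rw [h5] at hub
  have h6 := hmain.trans hub
  push_cast at h6
  -- `#fam * (A N / 8) ≤ 4 A log N S`
  have h7 : (A : ℝ) * ((#(fam A P) : ℝ) * N) ≤ A * (32 * Real.log N *
      ∑ a ∈ fam A P, (#((Icc 1 N).filter (fun n : ℕ => IsP ((a : ℤ) * n + c))) : ℝ)) := by
    nlinarith
  have h8 := le_of_mul_le_mul_left h7 hApos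
  linarith

end Pool.Agent.helper96.Slope
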